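import Pool.Agent.Helper56.PW.KIN
import Pool.Agent.Helper95.PM.Stmts

/-! Row KINM of the sheet `Pool.Agent.Helper95.PM.Stmts` (adapted from `Helper56/PW/KIN.lean`). -/

set_option autoImplicit false

namespace Pool.Agent.Helper95.PW

open MeasureTheory Filter

theorem kinm_pd_zero {f : R3 → ℝ} {S : Set R3} (hS : IsClosed S) (hf : ∀ y, y ∉ S → f y = 0)
    (m : Fin 3) : ∀ y, y ∉ S → pd m f y = 0 := by
  intro y hy
  have h1 : f =ᶠ[nhds y] fun _ => 0 := by
    filter_upwards [hS.isOpen_compl.mem_nhds hy] with z hz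
    exact hf z hz
  unfold pd
  rw [h1.fderiv_eq]
  simp

theorem kinm_ball01 (S : Set R3) (y : R3) : (ind S y = 1 ∧ y ∈ S) ∨ (ind S y = 0 ∧ y ∉ S) := by
  unfold ind
  by_cases h : y ∈ S
  · left; exact ⟨Set.indicator_of_mem h _, h⟩
  · right; exact ⟨Set.indicator_of_notMem h _, h⟩

theorem kinm_cut {f : R3 → ℝ} {S : Set R3} {c : ℝ} (hf : ∀ y, y ∉ S → f y = 0) (hc : ∀ y, |f y| ≤ c)
    (y : R3) : |f y| ≤ c * ind S y := by
  rcases kinm_ball01 S y with ⟨h1, _⟩ | ⟨h1, h2⟩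
  · rw [h1, mul_one]; exact hc y
  · rw [h1, hf y h2, mul_zero, abs_zero]

theorem kinm_Cb {n : ℕ} {g : R3 → ℝ} {K r : ℝ} {S : Set R3} (hg : Scale g K r) (hr : 0 < r)
    (hS : IsClosed S) (hR : ∀ y, y ∉ S → ∀ i, pd i g y = 0) (v : Cf n → ℝ) (k : Fin n) (i : Fin 3) (x : Cf n) :
    |kin_C g k i v x| ≤ K / r * kin_G k v x + 3 / 2 * (K / r ^ 2) * ind S (x k) * |v x| := by
  unfold kin_C kin_G
  refine (abs_add_le _ _).trans (add_le_add ?_ ?_)
  · rw [Finset.mul_sum]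
    refine (Finset.abs_sum_le_sum_abs _ _).trans (Finset.sum_le_sum fun j _ => ?_)
    rw [abs_mul]
    exact mul_le_mul_of_nonneg_right (hg.d2 i j _) (abs_nonneg _)
  · rw [abs_mul]
    refine mul_le_mul_of_nonneg_right ?_ (abs_nonneg _)
    rw [kin_lap_eq hg.sm i]
    refine kinm_cut (f := fun y => (∑ l, pd i (pd l (pd l g)) y) / 2) ?_ ?_ (x k)
    · intro y hy
      have h0 : ∀ l, pd i (pd l (pd l g)) y = 0 := fun l =>
        kinm_pd_zero hS (kinm_pd_zero hS (fun y hy => hR y hy l) l) i y hy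
      simp [h0]
    · intro y
      have h0 := kin_abs_sum3 (fun l => hg.d3 i l l y)
      rw [abs_div, abs_two]
      linarith

theorem kinm_Bb {n : ℕ} {g : R3 → ℝ} {K r : ℝ} {S : Set R3} (hg : Scale g K r) (hr : 0 < r)
    (hS : IsClosed S) (hR : ∀ y, y ∉ S → ∀ i, pd i g y = 0) (v : Cf n → ℝ) (k : Fin n) (i : Fin 3) (x : Cf n) :
    |kin_B g k i v x| ≤ 6 * (K ^ 2 / r ^ 2) * kin_G k v x +
      9 * (K ^ 2 / r ^ 3) * ind S (x k) * |v x| := by
  have hK := kin_K hg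
  have hG : 0 ≤ kin_G k v x := Finset.sum_nonneg fun j _ => abs_nonneg _
  have h1 : |∑ j, (∑ m, pd m g (x k) * pd m (pd i (pd j g)) (x k)) * dv k j v x| ≤
      3 * (K ^ 2 / r ^ 2) * kin_G k v x := by
    unfold kin_G
    rw [Finset.mul_sum]
    refine (Finset.abs_sum_le_sum_abs _ _).trans (Finset.sum_le_sum fun j _ => ?_)
    rw [abs_mul]
    refine mul_le_mul_of_nonneg_right ?_ (abs_nonneg _)
    refine kin_abs_sum3 fun m => ?_
    rw [abs_mul]
    calc |pd m g (x k)| * |pd m (pd i (pd j g)) (x k)| ≤ K * (K / r ^ 2) :=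
          mul_le_mul (hg.d1 m _) (hg.d3 m i j _) (abs_nonneg _) hK
      _ = K ^ 2 / r ^ 2 := by ring
  have h2 : |(∑ m, pd m g (x k) * pd m (pd i (fun y => lap g y / 2)) (x k)) * v x| ≤
      9 / 2 * (K ^ 2 / r ^ 3) * ind S (x k) * |v x| := by
    rw [abs_mul]
    refine mul_le_mul_of_nonneg_right ?_ (abs_nonneg _)
    refine kinm_cut (f := fun y => ∑ m, pd m g y * pd m (pd i (fun y => lap g y / 2)) y) ?_ ?_ (x k)
    · intro y hy
      have h0 : ∀ m, pd m g y = 0 := fun m => hR y hy m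
      simp [h0]
    · intro y
      have h0 : ∀ m, |pd m g y * pd m (pd i (fun y => lap g y / 2)) y| ≤
          3 / 2 * (K ^ 2 / r ^ 3) := by
        intro m
        rw [kin_lap2_eq hg.sm m i y, abs_mul, abs_div, abs_two]
        have h3 := kin_abs_sum3 (fun l => hg.d4 m i l l y)
        calc |pd m g y| * (|∑ l, pd m (pd i (pd l (pd l g))) y| / 2) ≤
              K * ((3 * (K / r ^ 3)) / 2) := by
              refine mul_le_mul (hg.d1 m y) ?_ (by positivity) hK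
              linarith
          _ = 3 / 2 * (K ^ 2 / r ^ 3) := by ring
      have h4 := kin_abs_sum3 h0
      refine h4.trans (le_of_eq ?_)
      ring
  have h3 : |∑ j, pd i (pd j g) (x k) * kin_C g k j v x| ≤
      3 * (K / r * (K / r * kin_G k v x + 3 / 2 * (K / r ^ 2) * ind S (x k) * |v x|)) := by
    refine kin_abs_sum3 fun j => ?_
    rw [abs_mul]
    exact mul_le_mul (hg.d2 i j _) (kinm_Cb hg hr hS hR v k j x) (abs_nonneg _) (by positivity)
  unfold kin_B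
  refine (abs_sub _ _).trans ?_
  refine (add_le_add ((abs_add_le _ _).trans (add_le_add h1 h2)) h3).trans (le_of_eq ?_)
  field_simp
  ring

theorem kinm_pt {n : ℕ} {g : R3 → ℝ} {K r : ℝ} {S : Set R3} (hg : Scale g K r) (hr : 0 < r)
    (hS : IsClosed S) (hR : ∀ y, y ∉ S → ∀ i, pd i g y = 0) (v : Cf n → ℝ) (k : Fin n) (i : Fin 3) (x : Cf n) :
    kin_C g k i v x ^ 2 - dv k i v x * kin_B g k i v x ≤
      39 * K ^ 2 * ((∑ j, dv k j v x ^ 2) / r ^ 2 + ind S (x k) * v x ^ 2 / r ^ 4) := by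
  have hK := kin_K hg
  have hG : 0 ≤ kin_G k v x := Finset.sum_nonneg fun j _ => abs_nonneg _
  have hC := kinm_Cb hg hr hS hR v k i x
  have hB := kinm_Bb hg hr hS hR v k i x
  have hD : |dv k i v x| ≤ kin_G k v x :=
    Finset.single_le_sum (f := fun j => |dv k j v x|) (fun j _ => abs_nonneg _)
      (Finset.mem_univ i)
  have hb : ind S (x k) = 1 ∨ ind S (x k) = 0 := by
    rcases kinm_ball01 S (x k) with h | h
    · exact Or.inl h.1
    · exact Or.inr h.1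
  obtain ⟨b, hbe⟩ : ∃ b, b = ind S (x k) := ⟨_, rfl⟩
  rw [← hbe] at hC hB hb ⊢
  have hb0 : 0 ≤ b := by rcases hb with h | h <;> rw [h]; norm_num
  have hbb : b ^ 2 = b := by rcases hb with h | h <;> rw [h] <;> norm_num
  obtain ⟨X, hX⟩ : ∃ X, X = kin_G k v x / r := ⟨_, rfl⟩
  obtain ⟨Y, hY⟩ : ∃ Y, Y = b * |v x| / r ^ 2 := ⟨_, rfl⟩
  have hX0 : 0 ≤ X := by rw [hX]; positivity
  have hY0 : 0 ≤ Y := by rw [hY]; positivity
  have e1 : K / r * kin_G k v x + 3 / 2 * (K / r ^ 2) * b * |v x| = K * (X + 3 / 2 * Y) := by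
    rw [hX, hY]; ring
  have e2 : kin_G k v x * (6 * (K ^ 2 / r ^ 2) * kin_G k v x + 9 * (K ^ 2 / r ^ 3) * b * |v x|) =
      K ^ 2 * (6 * X ^ 2 + 9 * X * Y) := by
    rw [hX, hY]; field_simp
  rw [e1] at hC
  have h1 : kin_C g k i v x ^ 2 ≤ (K * (X + 3 / 2 * Y)) ^ 2 := by
    rw [← sq_abs]
    exact pow_le_pow_left₀ (abs_nonneg _) hC 2
  have h2 : -(dv k i v x * kin_B g k i v x) ≤ K ^ 2 * (6 * X ^ 2 + 9 * X * Y) := by
    rw [← e2]
    calc -(dv k i v x * kin_B g k i v x) ≤ |dv k i v x * kin_B g k i v x| := neg_le_abs _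
      _ = |dv k i v x| * |kin_B g k i v x| := abs_mul _ _
      _ ≤ _ := mul_le_mul hD hB (abs_nonneg _) hG
  have h3 : (K * (X + 3 / 2 * Y)) ^ 2 + K ^ 2 * (6 * X ^ 2 + 9 * X * Y) ≤
      K ^ 2 * (13 * X ^ 2 + 39 * Y ^ 2) := by
    have h4 : (X + 3 / 2 * Y) ^ 2 + (6 * X ^ 2 + 9 * X * Y) ≤ 13 * X ^ 2 + 39 * Y ^ 2 := by
      nlinarith [sq_nonneg (X - Y), sq_nonneg Y]
    calc (K * (X + 3 / 2 * Y)) ^ 2 + K ^ 2 * (6 * X ^ 2 + 9 * X * Y) =
          K ^ 2 * ((X + 3 / 2 * Y) ^ 2 + (6 * X ^ 2 + 9 * X * Y)) := by ring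
      _ ≤ _ := mul_le_mul_of_nonneg_left h4 (by positivity)
  have h5 : kin_G k v x ^ 2 ≤ 3 * ∑ j, dv k j v x ^ 2 := by
    unfold kin_G
    rw [Fin.sum_univ_three, Fin.sum_univ_three]
    rw [← sq_abs (dv k 0 v x), ← sq_abs (dv k 1 v x), ← sq_abs (dv k 2 v x)]
    nlinarith [sq_nonneg (|dv k 0 v x| - |dv k 1 v x|), sq_nonneg (|dv k 0 v x| - |dv k 2 v x|),
      sq_nonneg (|dv k 1 v x| - |dv k 2 v x|)]
  have h6 : X ^ 2 ≤ 3 * ((∑ j, dv k j v x ^ 2) / r ^ 2) := by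
    rw [hX, div_pow]
    calc kin_G k v x ^ 2 / r ^ 2 ≤ (3 * ∑ j, dv k j v x ^ 2) / r ^ 2 := by gcongr
      _ = _ := by ring
  have h7 : Y ^ 2 = b * v x ^ 2 / r ^ 4 := by
    rw [hY, div_pow, mul_pow, hbb, sq_abs]; ring
  calc kin_C g k i v x ^ 2 - dv k i v x * kin_B g k i v x ≤
        K ^ 2 * (13 * X ^ 2 + 39 * Y ^ 2) := by linarith
    _ ≤ K ^ 2 * (13 * (3 * ((∑ j, dv k j v x ^ 2) / r ^ 2)) + 39 * (b * v x ^ 2 / r ^ 4)) := by
        rw [← h7]; gcongr
    _ = _ := by ring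

/-! ### the row -/

theorem kinm_iball {n : ℕ} {v : Cf n → ℝ} (hv : Continuous v) (hc : HasCompactSupport v)
    {S : Set R3} (hS : IsClosed S) (k : Fin n) : Integrable (fun x => ind S (x k) * v x ^ 2) := by
  have hm : MeasurableSet {x : Cf n | x k ∈ S} :=
    (hS.preimage (continuous_apply k)).measurableSet
  have h1 := (kin_isq hv hc).indicator hm
  refine h1.congr (Filter.Eventually.of_forall fun x => ?_)
  simp only
  by_cases h : x k ∈ S
  · rw [Set.indicator_of_mem (s := {x : Cf n | x k ∈ S}) h]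
    rcases kinm_ball01 S (x k) with h2 | h2
    · rw [h2.1, one_mul]
    · exact absurd h h2.2
  · rw [Set.indicator_of_notMem (s := {x : Cf n | x k ∈ S}) h]
    rcases kinm_ball01 S (x k) with h2 | h2
    · exact absurd h2.2 h
    · rw [h2.1, zero_mul]

theorem kinm_one_le {n : ℕ} {g : R3 → ℝ} {K r : ℝ} {S : Set R3} (hg : Scale g K r) (hr : 0 < r)
    (hS : IsClosed S) (hR : ∀ y, y ∉ S → ∀ i, pd i g y = 0) {v : Cf n → ℝ} (hv : ContDiff ℝ (⊤ : ℕ∞) v)
    (hvc : HasCompactSupport v) (k : Fin n) (i : Fin 3) :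
    ∫ x, (kin_C g k i v x ^ 2 - dv k i v x * kin_B g k i v x) ≤
      39 * K ^ 2 * ((∑ j, ∫ x, dv k j v x ^ 2) / r ^ 2 +
        (∫ x, ind S (x k) * v x ^ 2) / r ^ 4) := by
  have i1 : ∀ j, Integrable (fun x => dv k j v x ^ 2) := fun j =>
    kin_isq (kin_cd_dv k j hv).continuous (kin_cs_dv k j hvc)
  have i2 : Integrable (fun x => ∑ j, dv k j v x ^ 2) := integrable_finset_sum _ fun j _ => i1 j
  have i3 := kinm_iball hv.continuous hvc hS k
  have i4 : Integrable (fun x => (∑ j, dv k j v x ^ 2) / r ^ 2 + ind S (x k) * v x ^ 2 / r ^ 4) :=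
    (i2.div_const _).add (i3.div_const _)
  have i5 := i4.const_mul (39 * K ^ 2)
  have e1 : ∫ x, 39 * K ^ 2 * ((∑ j, dv k j v x ^ 2) / r ^ 2 + ind S (x k) * v x ^ 2 / r ^ 4) =
      39 * K ^ 2 * ((∑ j, ∫ x, dv k j v x ^ 2) / r ^ 2 +
        (∫ x, ind S (x k) * v x ^ 2) / r ^ 4) := by
    rw [integral_const_mul, integral_add (i2.div_const _) (i3.div_const _), integral_div,
      integral_div, integral_finset_sum _ fun j _ => i1 j]
  rw [← e1]
  by_cases hf : Integrable (fun x => kin_C g k i v x ^ 2 - dv k i v x * kin_B g k i v x)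
  · exact integral_mono hf i5 fun x => kinm_pt hg hr hS hR v k i x
  · rw [integral_undef hf]
    refine integral_nonneg fun x => ?_
    have h1 : 0 ≤ ind S (x k) := by
      rcases kinm_ball01 S (x k) with h | h <;> rw [h.1]
      norm_num
    have h2 : 0 ≤ ∑ j, dv k j v x ^ 2 := Finset.sum_nonneg fun j _ => sq_nonneg _
    simp only [Pi.zero_apply]
    positivity

theorem st_KINM (hI : ST_IBP) (hP : ST_PAN) (hST : ST_STB) : ST_KINM := by
  refine ⟨117, by norm_num, ?_⟩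
  intro n g K r S u hg hr hS hR hu
  have key : ∀ s, (∑ k, ∑ i, ∫ x, dv k i (Pg g (u s)) x ^ 2) -
      ∫ x, Pg g (Pg g (u s)) x * ∑ k, ∑ i, dv k i (dv k i (u s)) x ≤
      117 * K ^ 2 * ((∑ k, ∑ i, ∫ x, dv k i (u s) x ^ 2) / r ^ 2 +
        (∫ x, (∑ k, ind S (x k)) * u s x ^ 2) / r ^ 4) := by
    intro s
    obtain ⟨hv, hvc⟩ := hu s
    have hPv := kin_cd_P hg.sm hv
    have hPc : HasCompactSupport (Pg g (u s)) := ((hST n g u hg.sm hu).2.1 s).2
    have hPPv := kin_cd_P hg.sm hPv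
    have hPPc : HasCompactSupport (Pg g (Pg g (u s))) :=
      (((hST n g (fun _ => Pg g (u s)) hg.sm (fun _ => ⟨hPv, hPc⟩)).2.1) s).2
    have e1 : ∫ x, Pg g (Pg g (u s)) x * ∑ k, ∑ i, dv k i (dv k i (u s)) x =
        ∑ k, ∑ i, ∫ x, Pg g (Pg g (u s)) x * dv k i (dv k i (u s)) x := by
      have i1 : ∀ k i, Integrable (fun x => Pg g (Pg g (u s)) x * dv k i (dv k i (u s)) x) :=
        fun k i => kin_int (hPPv.continuous.mul (kin_cd_dv k i (kin_cd_dv k i hv)).continuous)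
          (hPPc.mul_right)
      rw [← Finset.sum_congr rfl fun k _ => integral_finset_sum Finset.univ fun i _ => i1 k i,
        ← integral_finset_sum Finset.univ fun k _ => integrable_finset_sum _ fun i _ => i1 k i]
      refine integral_congr_ae (Filter.Eventually.of_forall fun x => ?_)
      simp only [Finset.mul_sum]
    have e2 : ∫ x, (∑ k, ind S (x k)) * u s x ^ 2 = ∑ k, ∫ x, ind S (x k) * u s x ^ 2 := by
      rw [← integral_finset_sum Finset.univ fun k _ => kinm_iball hv.continuous hvc hS k]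
      refine integral_congr_ae (Filter.Eventually.of_forall fun x => ?_)
      simp only [Finset.sum_mul]
    rw [e1, e2, ← Finset.sum_sub_distrib]
    have e3 : ∀ k, (∑ i, ∫ x, dv k i (Pg g (u s)) x ^ 2) -
        ∑ i, ∫ x, Pg g (Pg g (u s)) x * dv k i (dv k i (u s)) x ≤
        117 * K ^ 2 * ((∑ i, ∫ x, dv k i (u s) x ^ 2) / r ^ 2 +
          (∫ x, ind S (x k) * u s x ^ 2) / r ^ 4) := by
      intro k
      rw [← Finset.sum_sub_distrib]
      calc ∑ i, ((∫ x, dv k i (Pg g (u s)) x ^ 2) -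
            ∫ x, Pg g (Pg g (u s)) x * dv k i (dv k i (u s)) x)
          ≤ ∑ _i : Fin 3, 39 * K ^ 2 * ((∑ j, ∫ x, dv k j (u s) x ^ 2) / r ^ 2 +
            (∫ x, ind S (x k) * u s x ^ 2) / r ^ 4) := by
            refine Finset.sum_le_sum fun i _ => ?_
            rw [kin_id hI hP hST hg.sm hv hvc k i]
            exact kinm_one_le hg hr hS hR hv hvc k i
        _ = _ := by
            rw [Finset.sum_const, Finset.card_univ, Fintype.card_fin, nsmul_eq_mul]
            push_cast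
            ring
    refine (Finset.sum_le_sum fun k _ => e3 k).trans (le_of_eq ?_)
    rw [← Finset.mul_sum, Finset.sum_add_distrib, Finset.sum_div, Finset.sum_div]
  rw [kin_sum (fun s => Pg g (u s)), kin_sum u, ← Finset.sum_sub_distrib]
  refine (Finset.sum_le_sum fun s _ => key s).trans (le_of_eq ?_)
  unfold one
  rw [← Finset.mul_sum, Finset.sum_add_distrib, Finset.sum_div, Finset.sum_div]

end Pool.Agent.Helper95.PW
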